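import Mathlib

set_option autoImplicit false

/-!
# Modules MIN and AVOID: minors, and points avoiding countably many hypersurfaces
-/

namespace Pool.Agent.helper7.SC

open MvPolynomial

/-! ## minors -/

theorem exists_minor_of_ker {K : Type} [Field K] {J κ : Type} [Fintype J] [Fintype κ]
    [DecidableEq J] [DecidableEq κ] (E : Matrix J κ K) (D : ℕ)
    (hD : Module.finrank K (LinearMap.ker E.mulVecLin) ≤ D) :
    ∃ (ι : Type) (_ : Fintype ι) (_ : DecidableEq ι) (a : ι → κ) (b : ι → J),
      Function.Injective a ∧ Fintype.card κ ≤ Fintype.card ι + D ∧ (E.submatrix b a).det ≠ 0 := by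
  classical
  obtain ⟨κ', a, ha, hspan, hli⟩ := exists_linearIndependent' K E.col
  have : Finite κ' := Finite.of_injective a ha
  have : Fintype κ' := Fintype.ofFinite κ'
  have hcard : Fintype.card κ' = E.rank := by
    rw [Matrix.rank_eq_finrank_span_cols, ← hspan, finrank_span_eq_card hli]
  set E' : Matrix J κ' K := E.submatrix id a with hE'
  have hcol : E'.col = E.col ∘ a := by
    funext i; rfl
  have hrank' : E'.rank = Fintype.card κ' := by
    rw [Matrix.rank_eq_finrank_span_cols, hcol, finrank_span_eq_card hli]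
  obtain ⟨ι', b, hb, hspan', hli'⟩ := exists_linearIndependent' K E'.row
  have : Finite ι' := Finite.of_injective b hb
  have : Fintype ι' := Fintype.ofFinite ι'
  have hcard' : Fintype.card ι' = Fintype.card κ' := by
    rw [← hrank', Matrix.rank_eq_finrank_span_row, ← hspan', finrank_span_eq_card hli']
  let e : κ' ≃ ι' := Fintype.equivOfCardEq hcard'.symm
  refine ⟨κ', inferInstance, inferInstance, a, b ∘ e, ha, ?_, ?_⟩
  · have h1 := E.mulVecLin.finrank_range_add_finrank_ker
    rw [Module.finrank_fintype_fun_eq_card] at h1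
    have h2 : E.rank = Module.finrank K (LinearMap.range E.mulVecLin) := rfl
    omega
  · have hrow : (E.submatrix (b ∘ e) a).row = (E'.row ∘ b) ∘ e := by
      funext i; rfl
    have h3 : LinearIndependent K (E.submatrix (b ∘ e) a).row := by
      rw [hrow]
      exact hli'.comp _ e.injective
    have h4 := Matrix.linearIndependent_rows_iff_isUnit.mp h3
    rw [Matrix.isUnit_iff_isUnit_det] at h4
    exact h4.ne_zero

theorem ker_of_minor {K : Type} [Field K] {J κ : Type} [Fintype J] [Fintype κ]
    [DecidableEq J] [DecidableEq κ] (E : Matrix J κ K) {ι : Type} [Fintype ι] [DecidableEq ι]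
    (a : ι → κ) (b : ι → J) (ha : Function.Injective a) (hdet : (E.submatrix b a).det ≠ 0) :
    Module.finrank K (LinearMap.ker E.mulVecLin) + Fintype.card ι ≤ Fintype.card κ := by
  have h1 := E.mulVecLin.finrank_range_add_finrank_ker
  rw [Module.finrank_fintype_fun_eq_card] at h1
  have h2 : E.rank = Module.finrank K (LinearMap.range E.mulVecLin) := rfl
  have h3 := E.rank_submatrix_le b a
  have h4 : (E.submatrix b a).rank = Fintype.card ι := by
    apply Matrix.rank_of_isUnit
    rw [Matrix.isUnit_iff_isUnit_det]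
    exact isUnit_iff_ne_zero.mpr hdet
  omega

/-! ## very general points exist -/

theorem exists_avoid_fin (n : ℕ) (T : Set (MvPolynomial (Fin n) ℂ)) (hT : T.Countable)
    (h0 : ∀ f ∈ T, f ≠ 0) : ∃ p : Fin n → ℂ, ∀ f ∈ T, eval p f ≠ 0 := by
  induction n with
  | zero =>
    refine ⟨fun i => i.elim0, fun f hf h => h0 f hf ?_⟩
    have h1 : f = C (f.coeff 0) := by
      exact MvPolynomial.eq_C_of_isEmpty f
    rw [h1, eval_C] at h
    rw [h1, h, C_0]
  | succ n ih =>
    -- nonzero coefficients of the polynomials in the first variable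
    set T' : Set (MvPolynomial (Fin n) ℂ) :=
      {c | c ≠ 0 ∧ ∃ f ∈ T, ∃ i : ℕ, c = (finSuccEquiv ℂ n f).coeff i} with hT'
    have hT'c : T'.Countable := by
      have h1 : T' ⊆ ⋃ f ∈ T, Set.range fun i : ℕ => (finSuccEquiv ℂ n f).coeff i := by
        rintro c ⟨-, f, hf, i, rfl⟩
        simp only [Set.mem_iUnion]
        exact ⟨f, hf, i, rfl⟩
      exact (hT.biUnion fun f _ => Set.countable_range _).mono h1
    obtain ⟨p, hp⟩ := ih T' hT'c fun f hf => hf.1
    -- specialised polynomials are nonzero
    have hne : ∀ f ∈ T, (finSuccEquiv ℂ n f).map (eval p) ≠ 0 := by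
      intro f hf h
      have h1 : finSuccEquiv ℂ n f ≠ 0 := by
        simpa using h0 f hf
      obtain ⟨i, hi⟩ : ∃ i, (finSuccEquiv ℂ n f).coeff i ≠ 0 :=
        ⟨_, Polynomial.leadingCoeff_ne_zero.mpr h1⟩
      have h2 := hp _ ⟨hi, f, hf, i, rfl⟩
      have h3 := congrArg (fun q => Polynomial.coeff q i) h
      simp only [Polynomial.coeff_map, Polynomial.coeff_zero] at h3
      exact h2 h3
    have hbad : (⋃ f ∈ T, {z : ℂ | ((finSuccEquiv ℂ n f).map (eval p)).IsRoot z}).Countable := by
      refine hT.biUnion fun f hf => ?_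
      exact (Polynomial.finite_setOfPred_isRoot (hne f hf)).countable
    obtain ⟨z, hz⟩ : ∃ z : ℂ, z ∉ ⋃ f ∈ T,
        {z : ℂ | ((finSuccEquiv ℂ n f).map (eval p)).IsRoot z} := by
      by_contra hcon
      push Not at hcon
      have : (Set.univ : Set ℂ).Countable := hbad.mono fun z _ => hcon z
      exact not_countable_complex this
    refine ⟨Fin.cons z p, fun f hf h => hz ?_⟩
    simp only [Set.mem_iUnion]
    refine ⟨f, hf, ?_⟩
    show Polynomial.eval z _ = 0
    rw [eval_eq_eval_mv_eval'] at h
    exact h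

theorem exists_avoid {σ : Type} [Fintype σ] (T : Set (MvPolynomial σ ℂ)) (hT : T.Countable)
    (h0 : ∀ f ∈ T, f ≠ 0) : ∃ p : σ → ℂ, ∀ f ∈ T, eval p f ≠ 0 := by
  classical
  let e : σ ≃ Fin (Fintype.card σ) := Fintype.equivFin σ
  obtain ⟨p, hp⟩ := exists_avoid_fin (Fintype.card σ) ((rename e) '' T) (hT.image _) (by
    rintro _ ⟨f, hf, rfl⟩ h
    exact h0 f hf ((map_eq_zero_iff _ (rename_injective _ e.injective)).mp h))
  refine ⟨p ∘ e, fun f hf h => hp _ ⟨f, hf, rfl⟩ ?_⟩
  rw [eval_rename]
  exact h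

end Pool.Agent.helper7.SC
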