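import Pool.Agent.helper7.SC.Defs
import Pool.Agent.helper5.NBSBezout
import Pool.Agent.helper5.NBSGeneral

set_option autoImplicit false

/-!
# Module BAS: adapted bases
-/

namespace Pool.Agent.helper7.SC

open MvPolynomial Pool.Agent.helper5.NBS Pool.Agent.helper7.SC

/-- polynomials all of whose monomials have weight in a set -/
def wtSub (N : ℕ) (S : Set ℕ) : Submodule ℂ R2 where
  carrier := {Q | ∀ k : Fin 2 →₀ ℕ, coeff k Q ≠ 0 → k 0 + N * k 1 ∈ S}
  zero_mem' := by
    intro k hk
    simp at hk
  add_mem' := by
    intro a b ha hb k hk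
    by_cases h : coeff k a = 0
    · refine hb k ?_
      intro h'
      exact hk (by rw [coeff_add, h, h', add_zero])
    · exact ha k h
  smul_mem' := by
    intro c a ha k hk
    refine ha k ?_
    intro h
    exact hk (by rw [coeff_smul, h, smul_zero])

theorem wtSub_disjoint (N : ℕ) (S T : Set ℕ) (h : Disjoint S T) :
    Disjoint (wtSub N S) (wtSub N T) := by
  rw [Submodule.disjoint_def]
  intro Q hS hT
  ext k
  by_contra hk
  rw [coeff_zero] at hk
  exact Set.disjoint_left.mp h (hS k hk) (hT k hk)

theorem exists_adapted_aux (N n : ℕ) : ∀ (V : Type) [AddCommGroup V] [Module ℂ V]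
    [FiniteDimensional ℂ V] (σ : V →ₗ[ℂ] PowerSeries R2) (_ : Function.Injective σ)
    (_ : ∀ (F : V) (s : ℕ) (k : Fin 2 →₀ ℕ), coeff k (PowerSeries.coeff s (σ F)) ≠ 0 →
      k 0 + N * k 1 = s) (_ : Module.finrank ℂ V ≤ n),
    ∃ (ι : Type) (_ : Fintype ι) (b : Module.Basis ι ℂ V) (w : ι → ℕ),
      (∀ j s, s < w j → PowerSeries.coeff s (σ (b j)) = 0) ∧
      LinearIndependent ℂ fun j => PowerSeries.coeff (w j) (σ (b j)) := by
  induction n with
  | zero =>
    intro V _ _ _ σ hσ hw hn
    have hsub : Subsingleton V := Module.finrank_zero_iff.mp (Nat.le_zero.mp hn)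
    exact ⟨Empty, inferInstance, Module.Basis.empty V, fun e => e.elim, fun e => e.elim,
      linearIndependent_empty_type⟩
  | succ n ih =>
    intro V _ _ _ σ hσ hw hn
    by_cases hsub : Subsingleton V
    · exact ⟨Empty, inferInstance, Module.Basis.empty V, fun e => e.elim, fun e => e.elim,
        linearIndependent_empty_type⟩
    · classical
      rw [not_subsingleton_iff_nontrivial] at hsub
      -- the coefficient maps
      let κ : ℕ → V →ₗ[ℂ] R2 := fun s => ((PowerSeries.coeff s).restrictScalars ℂ).comp σ
      have hκ : ∀ s F, κ s F = PowerSeries.coeff s (σ F) := fun s F => rfl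
      have hex : ∃ s, κ s ≠ 0 := by
        by_contra hcon
        push Not at hcon
        obtain ⟨v, hv⟩ := exists_ne (0 : V)
        apply hv
        apply hσ
        rw [map_zero]
        ext s : 1
        rw [← hκ, hcon s]
        simp
      set s := Nat.find hex with hs
      have hs1 : κ s ≠ 0 := Nat.find_spec hex
      have hs2 : ∀ t < s, κ t = 0 := fun t ht => by
        by_contra h
        exact Nat.find_min hex ht h
      set V' := LinearMap.ker (κ s) with hV'
      have hV't : V' ≠ ⊤ := by
        intro h
        exact hs1 (LinearMap.ker_eq_top.mp h)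
      have hlt : Module.finrank ℂ V' < Module.finrank ℂ V :=
        Submodule.finrank_lt hV't
      obtain ⟨ι', _, b', w', hb', hli'⟩ := ih V' (σ.comp V'.subtype)
        (hσ.comp V'.injective_subtype) (fun F t k h => hw F.1 t k h) (by omega)
      obtain ⟨V'', hcompl⟩ := Submodule.exists_isCompl V'
      let b'' := Module.finBasis ℂ V''
      have hw's : ∀ j, s < w' j := by
        intro j
        have h1 := hli'.ne_zero j
        by_contra hcon
        push Not at hcon
        rcases hcon.lt_or_eq with h | h
        · apply h1
          show κ (w' j) (b' j) = 0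
          rw [hs2 _ h]; rfl
        · apply h1
          show κ (w' j) (b' j) = 0
          rw [h]
          exact (b' j).2
      refine ⟨ι' ⊕ Fin (Module.finrank ℂ V''), inferInstance,
        (b'.prod b'').map (Submodule.prodEquivOfIsCompl V' V'' hcompl),
        Sum.elim w' fun _ => s, ?_, ?_⟩
      · rintro (j | j) t ht
        · simpa using hb' j t ht
        · have ht' : t < s := ht
          have h1 := LinearMap.congr_fun (hs2 t ht') (b'' j)
          rw [hκ] at h1
          simpa using h1
      · have heq : (fun j => PowerSeries.coeff (Sum.elim w' (fun _ => s) j)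
            (σ (((b'.prod b'').map (Submodule.prodEquivOfIsCompl V' V'' hcompl)) j))) =
            Sum.elim (fun j => PowerSeries.coeff (w' j) ((σ.comp V'.subtype) (b' j)))
              (fun j => κ s (b'' j)) := by
          funext j
          rcases j with j | j
          · simp
          · simp [hκ]
        rw [heq]
        refine LinearIndependent.sum_type hli' ?_ ?_
        · have h1 : LinearIndependent ℂ ((κ s).comp V''.subtype ∘ b'') := by
            apply b''.linearIndependent.map'
            rw [LinearMap.ker_eq_bot']
            intro F hF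
            have h2 : (F : V) ∈ V' := hF
            have h3 := Submodule.disjoint_def.mp hcompl.disjoint _ h2 F.2
            exact Subtype.ext h3
          exact h1
        · refine Disjoint.mono ?_ ?_ (wtSub_disjoint N (Set.Ioi s) {s} (by simp))
          · rw [Submodule.span_le]
            rintro _ ⟨j, rfl⟩
            intro k hk
            have h1 := hw _ _ _ hk
            rw [Set.mem_Ioi, h1]
            exact hw's j
          · rw [Submodule.span_le]
            rintro _ ⟨j, rfl⟩
            intro k hk
            exact hw _ _ _ hk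

/-- a finite-dimensional space of functions has a basis whose lowest weighted homogeneous
components are linearly independent -/
theorem exists_adapted {V : Type} [AddCommGroup V] [Module ℂ V] [FiniteDimensional ℂ V]
    (σ : V →ₗ[ℂ] PowerSeries R2) (hσ : Function.Injective σ) (N : ℕ)
    (hw : ∀ (F : V) (s : ℕ) (k : Fin 2 →₀ ℕ), coeff k (PowerSeries.coeff s (σ F)) ≠ 0 →
      k 0 + N * k 1 = s) :
    ∃ (b : Module.Basis (Fin (Module.finrank ℂ V)) ℂ V) (w : Fin (Module.finrank ℂ V) → ℕ),
      (∀ j s, s < w j → PowerSeries.coeff s (σ (b j)) = 0) ∧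
      LinearIndependent ℂ fun j => PowerSeries.coeff (w j) (σ (b j)) := by
  classical
  obtain ⟨ι, _, b, w, hb, hli⟩ := exists_adapted_aux N _ V σ hσ hw le_rfl
  let e : ι ≃ Fin (Module.finrank ℂ V) :=
    Fintype.equivOfCardEq (by rw [Fintype.card_fin, Module.finrank_eq_card_basis b])
  refine ⟨b.reindex e, w ∘ e.symm, ?_, ?_⟩
  · intro j s hs
    rw [Module.Basis.reindex_apply]
    exact hb _ s hs
  · have h := hli.comp _ e.symm.injective
    simpa [Module.Basis.reindex_apply, Function.comp_def] using h

end Pool.Agent.helper7.SC
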