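import Pool.Agent.helper7.SC.Defs
import Pool.Agent.helper5.NBSBezout
import Pool.Agent.helper5.NBSGeneral

set_option autoImplicit false

/-!
# Module VAN: vanishing on the variety `U^r`
-/

namespace Pool.Agent.helper7.SC

open MvPolynomial Pool.Agent.helper5.NBS Pool.Agent.helper7.SC

/-- a polynomial in `r` points which vanishes on `U^r` is killed by every homomorphism to a domain
which kills the equations of `U` in each point -/
theorem eval_zero_of_vanishing {R : Type} [CommRing R] [Algebra ℂ R] {n r : ℕ} (x : Fin n → R)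
    {A : Type} [CommRing A] [IsDomain A] [Algebra ℂ A]
    (Θ : MvPolynomial (Fin r × Fin n) ℂ →ₐ[ℂ] A)
    (hΘ : ∀ (i : Fin r) (f : MvPolynomial (Fin n) ℂ), aeval x f = 0 →
      Θ (rename (fun l => (i, l)) f) = 0)
    (g : MvPolynomial (Fin r × Fin n) ℂ)
    (hg : ∀ p : Fin r → Fin n → ℂ, (∀ i, OnU x (p i)) → eval (fun il => p il.1 il.2) g = 0) :
    Θ g = 0 := by
  set S : Set (MvPolynomial (Fin r × Fin n) ℂ) :=
    {F | ∃ (i : Fin r) (f : MvPolynomial (Fin n) ℂ), aeval x f = 0 ∧
      F = rename (fun l => (i, l)) f} with hS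
  have h1 : g ∈ vanishingIdeal ℂ (zeroLocus ℂ (Ideal.span S)) := by
    rw [mem_vanishingIdeal_iff]
    intro P hP
    rw [zeroLocus_span] at hP
    have h2 := hg (fun i l => P (i, l)) (by
      intro i f hf
      have h3 := hP _ ⟨i, f, hf, rfl⟩
      rw [aeval_rename] at h3
      rw [← coe_aeval_eq_eval]
      exact h3)
    rw [← coe_aeval_eq_eval] at h2
    exact h2
  rw [vanishingIdeal_zeroLocus_eq_radical, Ideal.mem_radical_iff] at h1
  obtain ⟨k, hk⟩ := h1
  have h4 : Ideal.span S ≤ RingHom.ker Θ := by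
    rw [Ideal.span_le]
    rintro _ ⟨i, f, hf, rfl⟩
    exact hΘ i f hf
  have h5 : Θ (g ^ k) = 0 := h4 hk
  rw [map_pow] at h5
  exact eq_zero_of_pow_eq_zero h5

end Pool.Agent.helper7.SC
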